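import Pool.Agent.H.MP_21f5b8_an.C

namespace Pool.Agent.Results.MP_21f5b8_an.No

open MeasureTheory Filter Topology Set Metric Pool.Agent.Lib.helper10.H10 Pool.Agent.H.MP_eb4995_an
open scoped ENNReal NNReal

section
variable {V : Type} [NormedAddCommGroup V] [InnerProductSpace ℝ V] [CompleteSpace V]
  [MeasurableSpace V] (μ : Measure V)

/-- Pairs `(u, G)` in `L²(V) × L²(V; V)`. -/
abbrev Y := Lp ℝ 2 μ × Lp V 2 μ

/-- The function `u` of a pair. -/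
noncomputable def fn (p : Y μ) : V → ℝ := p.1

/-- The field `G` of a pair. -/
noncomputable def gr (p : Y μ) : V → V := p.2

/-- Test functions `C_0^∞(Ω)`. -/
def Tst (Ω : Set V) (φ : V → ℝ) : Prop :=
  ContDiff ℝ (⊤ : ℕ∞) φ ∧ HasCompactSupport φ ∧ tsupport φ ⊆ Ω

/-- `H^1_0(Ω)`: the closure in `L² × L²` of the pairs `(φ, ∇φ)`, `φ` a test function. -/
def H (Ω : Set V) : Set (Y μ) :=
  closure {p | ∃ φ, Tst Ω φ ∧ fn μ p =ᵐ[μ] φ ∧ gr μ p =ᵐ[μ] gradient φ}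

/-- The `q`-eigenvalues that have a nonnegative normalised eigenfunction. -/
def Eig (Ω : Set V) (q : ℝ) : Set ℝ :=
  {l | ∃ p ∈ H μ Ω, eLpNorm (fn μ p) (ENNReal.ofReal q) μ = 1 ∧ (∀ᵐ x ∂μ, 0 ≤ fn μ p x) ∧
    ∀ φ, Tst Ω φ → ∫ x, inner ℝ (gr μ p x) (gradient φ x) ∂μ =
      l * ∫ x, |fn μ p x| ^ (q - 2) * fn μ p x * φ x ∂μ}

end

attribute [local instance] fact4

theorem result : ∃ q : ℝ, 2 < q ∧ q < 6 ∧
    ∃ Ω : Set (EuclideanSpace ℝ (Fin 3)), IsOpen Ω ∧ Bornology.IsBounded Ω ∧ IsConnected Ω ∧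
      (Eig volume Ω q).Infinite := by
  obtain ⟨Ω, o, b, c, h⟩ := H.MP_21f5b8_an.domain
  obtain ⟨J, -, hJ, -⟩ := exists_J (N := 3) (Ω := Ω) (by norm_num) b 4 (by norm_num)
  refine ⟨4, by norm_num, by norm_num, Ω, o, b, c, infinite_of_not_bddAbove fun ⟨L, hL⟩ => ?_⟩
  obtain ⟨l, h1, p, p0, p1, p2⟩ := h (|L| + 1) (by positivity) J hJ
  refine (hL (a := l) ⟨p.1, p.2, ?_, (Lp.coeFn_nonneg _).2 p0, fun φ hφ => ?_⟩).not_gt
    (by linarith [le_abs_self L])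
  · unfold fn
    rw [show ENNReal.ofReal 4 = ((4 : ℝ≥0) : ℝ≥0∞) by simp, ← eLpNorm_congr_ae (hJ p),
      ← Lp.enorm_def, ← ofReal_norm, p1, ENNReal.ofReal_one]
  · refine (p2 φ hφ).trans ?_
    congr 2
    ext x
    rw [show (4 : ℝ) - 2 = (2 : ℕ) by norm_num, Real.rpow_natCast, sq_abs, fn]
    ring

end Pool.Agent.Results.MP_21f5b8_an.No
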